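import Pool.Agent.FPP38.Meas

/-!
The passage time to the sphere of radius `n` is nondecreasing in `n`.
-/

set_option autoImplicit false
set_option linter.deprecated false

open Finset

namespace Pool.Agent.FPPT

open Pool.Agent.FPP38

variable {d : ℕ}

/-- cut a walk at its first point of the sphere -/
theorem cut_walk {ω : Sym2 (Fin d → ℤ) → Bool} {n : ℕ} {x y : Fin d → ℤ} (w : (Z d).Walk x y)
    (hx : x ∈ box (0 : Fin d → ℤ) n) (hy : y ∈ box (0 : Fin d → ℤ) n → y ∈ sph (0 : Fin d → ℤ) n) :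
    ∃ v ∈ sph (0 : Fin d → ℤ) n, ∃ w' : (Z d).Walk x v,
      (w'.edges.map (fun e => if ω e then (0 : ℕ) else 1)).sum ≤
        (w.edges.map (fun e => if ω e then (0 : ℕ) else 1)).sum := by
  induction w with
  | nil => exact ⟨_, hy hx, SimpleGraph.Walk.nil, le_rfl⟩
  | @cons x x' y h w ih =>
    by_cases hxs : x ∈ sph (0 : Fin d → ℤ) n
    · exact ⟨x, hxs, SimpleGraph.Walk.nil, by simp⟩
    · obtain ⟨v, hv, w', hw'⟩ := ih (mem_box_of_nb hx hxs (Z_adj.1 h)) hy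
      refine ⟨v, hv, SimpleGraph.Walk.cons h w', ?_⟩
      simp only [SimpleGraph.Walk.edges_cons, List.map_cons, List.sum_cons]
      omega

theorem TT_set_nonempty (i : Fin d) (n : ℕ) (ω : Sym2 (Fin d → ℤ) → Bool) :
    {k : ℕ | ∃ y : Fin d → ℤ, (∃ i, |y i| = (n : ℤ)) ∧ (∀ i, |y i| ≤ (n : ℤ)) ∧
      ∃ w : (Z d).Walk 0 y, (w.edges.map (fun e => if ω e then (0 : ℕ) else 1)).sum = k}.Nonempty := by
  obtain ⟨w⟩ := walk_single (d := d) i n
  refine ⟨_, Pi.single i (n : ℤ), ⟨i, by simp⟩, fun j => ?_, w, rfl⟩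
  by_cases hj : j = i
  · subst hj; simp
  · simp [hj]

/-- **the passage time to the sphere of radius `n` is nondecreasing in `n`** -/
theorem TT_mono (i : Fin d) {n m : ℕ} (h : n ≤ m) (ω : Sym2 (Fin d → ℤ) → Bool) :
    TT d n ω ≤ TT d m ω := by
  obtain ⟨y, hy1, hy2, w, hw⟩ := Nat.sInf_mem (TT_set_nonempty i m ω)
  have hy : y ∈ box (0 : Fin d → ℤ) n → y ∈ sph (0 : Fin d → ℤ) n := by
    intro hb
    rw [mem_box] at hb
    obtain ⟨j, hj⟩ := hy1
    have h1 := hb j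
    rw [Pi.zero_apply, sub_zero, hj] at h1
    have h2 : (n : ℤ) = m := le_antisymm (by exact_mod_cast h) h1
    rw [mem_sph]
    refine ⟨hb, j, ?_⟩
    rw [Pi.zero_apply, sub_zero, hj, h2]
  obtain ⟨v, hv, w', hw'⟩ := cut_walk (ω := ω) w (self_mem_box _ _) hy
  rw [mem_sph] at hv
  have h3 : TT d n ω ≤ (w'.edges.map (fun e => if ω e then (0 : ℕ) else 1)).sum := by
    refine Nat.sInf_le ⟨v, ?_, ?_, w', rfl⟩
    · simpa using hv.2
    · simpa using hv.1
  calc TT d n ω ≤ _ := h3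
    _ ≤ _ := hw'
    _ = TT d m ω := hw

end Pool.Agent.FPPT
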