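import Pool.Agent.FPP38.Arm

/-!
`P(T(0, ∂B(n)) > k)` is at most the probability `Fl` of the finite model.
-/

set_option autoImplicit false

open Finset MeasureTheory
open scoped NNReal ENNReal

namespace Pool.Agent.FPPT

open Pool.Agent.FPP38

/-- the tail of the passage time is at most the tail in the finite model -/
theorem measure_TT_gt {d : ℕ} {p : ℝ≥0} (hp : p ≤ 1) (n k : ℕ) :
    PB (Fin d → ℤ) p hp {ω | k < TT d n ω} ≤
      ENNReal.ofReal (Fl p (sph (0 : Fin d → ℤ) n : Set (Fin d → ℤ)) (EB 0 n) {0} ∅ k) := by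
  refine (measure_mono (fun ω (hω : k < TT d n ω) => ?_)).trans_eq
    (measure_event hp (EB (0 : Fin d → ℤ) n) (fun O =>
      ¬ Hit (sph (0 : Fin d → ℤ) n : Set (Fin d → ℤ)) (EB 0 n) O {0} ∅ k))
  exact fun h => absurd (hit_le h) (not_le.2 hω)

end Pool.Agent.FPPT
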