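import Pool.Agent.FPP38.Ineq

/-!
The passage time of Bernoulli first-passage percolation on a finite set of edges is dominated by a
Poisson variable of mean `- log P(T = 0)`.
-/

set_option autoImplicit false

open Finset

namespace Pool.Agent.FPPT

open Pool.Agent.FPP38

/-- The first `k` terms of the exponential series. -/
noncomputable def Ek (k : ℕ) (x : ℝ) : ℝ := ∑ j ∈ range k, x ^ j / (j.factorial : ℝ)

/-- The probability that a Poisson variable of mean `x` is at least `k`. -/
noncomputable def PT (k : ℕ) (x : ℝ) : ℝ := 1 - Real.exp (-x) * Ek k x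

theorem Ek_succ (k : ℕ) (x : ℝ) : Ek (k + 1) x = Ek k x + x ^ k / (k.factorial : ℝ) :=
  sum_range_succ _ k

theorem PT_zero (x : ℝ) : PT 0 x = 1 := by simp [PT, Ek]

theorem PT_succ (k : ℕ) (x : ℝ) :
    PT (k + 1) x = PT k x - Real.exp (-x) * (x ^ k / (k.factorial : ℝ)) := by
  rw [PT, PT, Ek_succ]; ring

theorem PT_succ_zero (k : ℕ) : PT (k + 1) 0 = 0 := by
  induction k with
  | zero => rw [PT_succ, PT_zero]; simp
  | succ k ih => rw [PT_succ, ih]; simp

theorem hasDerivAt_term (k : ℕ) (x : ℝ) :
    HasDerivAt (fun y : ℝ => y ^ (k + 1) / ((k + 1).factorial : ℝ))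
      (x ^ k / (k.factorial : ℝ)) x := by
  have h3 := (hasDerivAt_pow (k + 1) x).div_const ((k + 1).factorial : ℝ)
  have h4 : ((k + 1 : ℕ) : ℝ) * x ^ (k + 1 - 1) / ((k + 1).factorial : ℝ) =
      x ^ k / (k.factorial : ℝ) := by
    have h5 : (k.factorial : ℝ) ≠ 0 := by exact_mod_cast k.factorial_ne_zero
    have h6 : ((k : ℝ) + 1) ≠ 0 := by positivity
    rw [Nat.factorial_succ]
    push_cast
    field_simp
  rw [h4] at h3
  exact h3

theorem hasDerivAt_PT (k : ℕ) (x : ℝ) :
    HasDerivAt (PT (k + 1)) (Real.exp (-x) * (x ^ k / (k.factorial : ℝ))) x := by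
  have hexp : HasDerivAt (fun y : ℝ => Real.exp (-y)) (-Real.exp (-x)) x := by
    simpa using (hasDerivAt_neg x).exp
  induction k with
  | zero =>
    have h1 : PT (0 + 1) = fun y => 1 - Real.exp (-y) := by
      funext y
      rw [PT_succ, PT_zero]
      simp
    rw [h1]
    simpa using hexp.const_sub 1
  | succ k ih =>
    have h1 : PT (k + 1 + 1) = fun y => PT (k + 1) y -
        Real.exp (-y) * (y ^ (k + 1) / ((k + 1).factorial : ℝ)) := by
      funext y
      rw [PT_succ]
    rw [h1]
    refine (ih.sub (hexp.mul (hasDerivAt_term k x))).congr_deriv ?_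
    ring

/-- The numerical step. -/
theorem num_step' {q L L' : ℝ} (k : ℕ) (h0 : 0 ≤ L') (hle : L' ≤ L) (hq : q ≤ Real.exp (-L)) :
    PT k L' - q * (L' ^ k / (k.factorial : ℝ)) ≤ PT k L - q * (L ^ k / (k.factorial : ℝ)) := by
  rcases k with _ | k
  · simp [PT_zero]
  have hmono : MonotoneOn (fun y : ℝ => PT (k + 1) y - q * (y ^ (k + 1) / ((k + 1).factorial : ℝ)))
      (Set.Icc L' L) := by
    have hd : ∀ y : ℝ, HasDerivAt
        (fun y : ℝ => PT (k + 1) y - q * (y ^ (k + 1) / ((k + 1).factorial : ℝ)))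
        (Real.exp (-y) * (y ^ k / (k.factorial : ℝ)) - q * (y ^ k / (k.factorial : ℝ))) y := by
      intro x
      exact (hasDerivAt_PT k x).sub ((hasDerivAt_term k x).const_mul q)
    refine monotoneOn_of_deriv_nonneg (convex_Icc L' L)
      (fun y _ => (hd y).continuousAt.continuousWithinAt)
      (fun y _ => (hd y).differentiableAt.differentiableWithinAt) ?_
    intro y hy
    rw [interior_Icc] at hy
    rw [(hd y).deriv, ← sub_mul]
    have hy0 : 0 ≤ y := h0.trans hy.1.le
    refine mul_nonneg ?_ (by positivity)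
    have h3 : Real.exp (-L) ≤ Real.exp (-y) := Real.exp_le_exp.mpr (by linarith [hy.2])
    linarith
  exact hmono ⟨le_rfl, hle⟩ ⟨hle, le_rfl⟩ hle

variable {V : Type*} [DecidableEq V]

/-- **Main inequality**, for the tails. -/
theorem tail_ineq {p : ℝ} (h0 : 0 ≤ p) (h1 : p ≤ 1) (t : Set V) :
    ∀ (A : Finset (Sym2 V)) (S R : Finset V) (k : ℕ), 0 < Q p t A (S ∪ R) →
      Fl p t A S R k ≤ PT k (-Real.log (Q p t A (S ∪ R))) -
        Q p t A S * ((-Real.log (Q p t A (S ∪ R))) ^ k / (k.factorial : ℝ)) := by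
  intro A
  induction hn : A.card using Nat.strong_induction_on generalizing A with
  | _ n ih =>
    have core : ∀ (S R : Finset V) (k : ℕ), 0 < Q p t A (S ∪ R) →
        ((∃ v ∈ S, v ∈ t) ∨ ¬ Exh A S) →
        Fl p t A S R k ≤ PT k (-Real.log (Q p t A (S ∪ R))) -
          Q p t A S * ((-Real.log (Q p t A (S ∪ R))) ^ k / (k.factorial : ℝ)) := by
      intro S R k hpos hcase
      rcases hcase with ht | hE
      · have h2 : Q p t A S = 1 := Q_eq_one ht
        have h3 : Q p t A (S ∪ R) = 1 := by
          obtain ⟨v, hv, hvt⟩ := ht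
          exact Q_eq_one ⟨v, mem_union_left _ hv, hvt⟩
        rw [Fl_eq_zero ht, h2, h3, Real.log_one, neg_zero]
        rcases k with _ | k
        · simp [PT_zero]
        · rw [PT_succ_zero]; simp
      · unfold Exh at hE
        push Not at hE
        obtain ⟨a, ha, w, he, hw⟩ := hE
        set A' := A.erase s(a, w) with hA'
        have hcard : A'.card < n := by
          rw [← hn]; exact card_erase_lt_of_mem he
        set ψ' := Q p t A' (insert w (S ∪ R)) with hψ'
        have haU : a ∈ S ∪ R := mem_union_left _ ha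
        have hψ : Q p t A (S ∪ R) ≤ ψ' := by
          rw [Q_reveal haU he]
          have g1 := Q_mono h0 h1 t A' (subset_insert w (S ∪ R))
          have g2 : (1 - p) * Q p t A' (S ∪ R) ≤ (1 - p) * ψ' :=
            mul_le_mul_of_nonneg_left g1 (by linarith)
          have g3 : p * Q p t A' (insert w (S ∪ R)) = p * ψ' := rfl
          linarith
        have hψ'0 : 0 < ψ' := hpos.trans_le hψ
        have hψ'1 : ψ' ≤ 1 := Q_le_one h0 h1 t A' _
        have u1 : insert w S ∪ R = insert w (S ∪ R) := insert_union w S R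
        have u2 : S ∪ insert w R = insert w (S ∪ R) := union_insert w S R
        have ih1 := ih _ hcard A' rfl (insert w S) R k (by rw [u1]; exact hψ'0)
        have ih2 := ih _ hcard A' rfl S (insert w R) k (by rw [u2]; exact hψ'0)
        rw [u1, ← hψ'] at ih1
        rw [u2, ← hψ'] at ih2
        have hq : Q p t A S = p * Q p t A' (insert w S) + (1 - p) * Q p t A' S := Q_reveal ha he
        have j1 := mul_le_mul_of_nonneg_left ih1 h0
        have j2 := mul_le_mul_of_nonneg_left ih2 (sub_nonneg.2 h1)
        have j3 : Fl p t A S R k ≤ PT k (-Real.log ψ') -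
            Q p t A S * ((-Real.log ψ') ^ k / (k.factorial : ℝ)) := by
          rw [Fl_reveal ha he k, hq]
          linarith
        refine j3.trans (num_step' k ?_ ?_ ?_)
        · linarith [Real.log_nonpos hψ'0.le hψ'1]
        · linarith [Real.log_le_log hpos hψ]
        · rw [neg_neg, Real.exp_log hpos]
          exact Q_mono h0 h1 t A subset_union_left
    intro S R k hpos
    by_cases hcase : (∃ v ∈ S, v ∈ t) ∨ ¬ Exh A S
    · exact core S R k hpos hcase
    · push Not at hcase
      obtain ⟨hnt, hE⟩ := hcase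
      have hq0 : Q p t A S = 0 := Q_eq_zero (by push Not; exact hnt) hE
      have hU : (∃ v ∈ S ∪ R, v ∈ t) ∨ ¬ Exh A (S ∪ R) := by
        by_contra hc
        push Not at hc
        exact absurd (Q_eq_zero (p := p) (by push Not; exact hc.1) hc.2) hpos.ne'
      rw [hq0, zero_mul, sub_zero]
      rcases k with _ | k
      · rw [PT_zero]
        exact Fl_le_one h0 h1 t A S R 0
      · have c := core (S ∪ R) ∅ k (by rwa [union_empty]) hU
        rw [union_empty] at c
        rw [Fl_exh hE, PT_succ, neg_neg, Real.exp_log hpos]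
        exact c

/-- **Poisson domination.** The passage time is larger than `k` with probability at most that of
a Poisson variable of mean `- log P(T = 0)`. -/
theorem tail_le {p : ℝ} (h0 : 0 ≤ p) (h1 : p ≤ 1) (t : Set V) (A : Finset (Sym2 V))
    (S : Finset V) (k : ℕ) (hq : 0 < Q p t A S) :
    Fl p t A S ∅ k ≤ PT (k + 1) (- Real.log (Q p t A S)) := by
  have := tail_ineq h0 h1 t A S ∅ k (by rwa [union_empty])
  rw [union_empty] at this
  rw [PT_succ, neg_neg, Real.exp_log hq]
  exact this

theorem PT_mono (k : ℕ) {x y : ℝ} (hx : 0 ≤ x) (hxy : x ≤ y) : PT k x ≤ PT k y := by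
  have h := num_step' (q := 0) k hx hxy (Real.exp_pos _).le
  simpa using h

end Pool.Agent.FPPT
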