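import Pool.Agent.FPP38.Arm
import Pool.Agent.FPPT.Tail

/-!
# Almost sure upper bounds from Poisson tails along a monotone sequence
-/

set_option autoImplicit false
set_option linter.deprecated false

open Finset MeasureTheory Filter
open scoped NNReal ENNReal

namespace Pool.Agent.FPPT.AsLim

/-! ### The passage time is monotone in the box -/

section Mono

open Pool.Agent.FPP38

variable {d : ℕ}

/-- the number of closed edges of a walk -/
def cost (ω : Sym2 (Fin d → ℤ) → Bool) {x y : Fin d → ℤ} (w : (Z d).Walk x y) : ℕ :=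
  (w.edges.map (fun e => if ω e then (0 : ℕ) else 1)).sum

theorem exists_prefix {ω : Sym2 (Fin d → ℤ) → Bool} {N : ℕ} {x y : Fin d → ℤ}
    (w : (Z d).Walk x y) (hx : x ∈ box (0 : Fin d → ℤ) N)
    (hy : y ∈ box (0 : Fin d → ℤ) N → y ∈ sph (0 : Fin d → ℤ) N) :
    ∃ v ∈ sph (0 : Fin d → ℤ) N, ∃ w' : (Z d).Walk x v, cost ω w' ≤ cost ω w := by
  induction w with
  | nil => exact ⟨_, hy hx, SimpleGraph.Walk.nil, le_rfl⟩
  | @cons x x' y h w ih =>
    by_cases hxs : x ∈ sph (0 : Fin d → ℤ) N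
    · exact ⟨x, hxs, SimpleGraph.Walk.nil, by simp [cost]⟩
    · have hnb := Z_adj.1 h
      have hx' := mem_box_of_nb hx hxs hnb
      obtain ⟨v, hv, w', hw'⟩ := ih hx' hy
      refine ⟨v, hv, SimpleGraph.Walk.cons h w', ?_⟩
      unfold cost at hw' ⊢
      rw [SimpleGraph.Walk.edges_cons, SimpleGraph.Walk.edges_cons, List.map_cons, List.map_cons,
        List.sum_cons, List.sum_cons]
      exact Nat.add_le_add_left hw' _

/-- the passage time to the sphere is monotone in its radius -/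
theorem TT_mono (i₀ : Fin d) (ω : Sym2 (Fin d → ℤ) → Bool) : Monotone (fun n => TT d n ω) := by
  intro n m hnm
  show TT d n ω ≤ TT d m ω
  have hne : {k : ℕ | ∃ y : Fin d → ℤ, (∃ i, |y i| = (m : ℤ)) ∧ (∀ i, |y i| ≤ (m : ℤ)) ∧
      ∃ w : (Z d).Walk 0 y, (w.edges.map (fun e => if ω e then (0 : ℕ) else 1)).sum = k}.Nonempty := by
    obtain ⟨w⟩ := walk_single (d := d) i₀ m
    refine ⟨_, Pi.single i₀ (m : ℤ), ⟨i₀, by simp⟩, fun j => ?_, w, rfl⟩
    by_cases hj : j = i₀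
    · subst hj; simp
    · simp [hj]
  obtain ⟨y, ⟨i, hi⟩, hy, w, hw⟩ := Nat.sInf_mem hne
  have hTm : TT d m ω = cost ω w := hw.symm
  obtain ⟨v, hv, w', hw'⟩ := exists_prefix (ω := ω) (N := n) w (self_mem_box _ _) (by
    intro hyb
    refine mem_sph.2 ⟨mem_box.1 hyb, i, ?_⟩
    have h1 := mem_box.1 hyb i
    simp only [Pi.zero_apply, sub_zero] at h1 ⊢
    rw [hi] at h1 ⊢
    have h2 : m ≤ n := by exact_mod_cast h1
    have h3 : m = n := le_antisymm h2 hnm
    rw [h3])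
  rw [hTm]
  refine le_trans (Nat.sInf_le ?_) hw'
  obtain ⟨h1, j, h2⟩ := mem_sph.1 hv
  refine ⟨v, ⟨j, by simpa using h2⟩, fun i => by simpa using h1 i, w', rfl⟩

end Mono

/-! ### From exponential moments to almost sure bounds -/

theorem rate_pos {e : ℝ} (he : 0 < e) : 0 < (1 + e) * Real.log (1 + e) - e := by
  have h1 : (0 : ℝ) < 1 + e := by linarith
  have h2 := Real.one_sub_inv_le_log_of_pos h1
  have h3 : Real.log (1 + e)⁻¹ < (1 + e)⁻¹ - 1 := by
    refine Real.log_lt_sub_one_of_pos (by positivity) ?_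
    intro h
    have h4 : (1 + e) = 1 := by
      have := congrArg (fun x : ℝ => x⁻¹) h
      simpa using this
    linarith
  rw [Real.log_inv] at h3
  have h5 : (1 + e) * (-Real.log (1 + e)) < (1 + e) * ((1 + e)⁻¹ - 1) :=
    mul_lt_mul_of_pos_left h3 h1
  have h6 : (1 + e) * ((1 + e)⁻¹ - 1) = -e := by
    field_simp
    ring
  rw [h6] at h5
  linarith

variable {Ω : Type*} [MeasurableSpace Ω]

/-- one `e` along the powers of two -/
theorem ae_pow (μ : Measure Ω) (T : ℕ → Ω → ℕ) (c : ℝ)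
    (h : ∀ n : ℕ, 1 ≤ n → ∀ k : ℕ, ∀ θ : ℝ, 1 ≤ θ →
      μ {ω | k ≤ T n ω} ≤ ENNReal.ofReal (Real.exp ((θ - 1) * (Real.log n + c)) / θ ^ k))
    {e : ℝ} (he : 0 < e) :
    ∀ᵐ ω ∂μ, ∀ᶠ j : ℕ in atTop, (T (2 ^ j) ω : ℝ) ≤ (1 + e) * (j * Real.log 2) := by
  have hI := rate_pos he
  set I : ℝ := (1 + e) * Real.log (1 + e) - e with hIdef
  have hl2 : 0 < Real.log 2 := Real.log_pos (by norm_num)
  set E : ℕ → Set Ω := fun j => {ω | (1 + e) * (j * Real.log 2) < (T (2 ^ j) ω : ℝ)} with hE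
  have hbound : ∀ j : ℕ, μ (E j) ≤
      ENNReal.ofReal (Real.exp (e * c) * Real.exp (-(I * Real.log 2)) ^ j) := by
    intro j
    set x : ℝ := j * Real.log 2 with hx
    have hx0 : 0 ≤ x := by positivity
    set k : ℕ := ⌊(1 + e) * x⌋₊ + 1 with hk
    have hsub : E j ⊆ {ω | k ≤ T (2 ^ j) ω} := by
      intro ω hω
      show k ≤ T (2 ^ j) ω
      have h1 : ⌊(1 + e) * x⌋₊ < T (2 ^ j) ω := (Nat.floor_lt (by positivity)).2 hω
      omega
    have hkx : (1 + e) * x ≤ k := by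
      have := Nat.lt_floor_add_one ((1 + e) * x)
      rw [hk]
      push_cast
      linarith
    refine (measure_mono hsub).trans ((h (2 ^ j) Nat.one_le_two_pow k (1 + e) (by linarith)).trans
      (ENNReal.ofReal_le_ofReal ?_))
    have hlog : Real.log ((2 ^ j : ℕ) : ℝ) = x := by
      push_cast
      rw [Real.log_pow]
    rw [hlog]
    have h1e : (1 : ℝ) < 1 + e := by linarith
    have hlog1 : 0 < Real.log (1 + e) := Real.log_pos h1e
    have hpow : Real.exp ((1 + e) * x * Real.log (1 + e)) ≤ (1 + e) ^ k := by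
      rw [← Real.exp_log (show (0 : ℝ) < (1 + e) ^ k by positivity), Real.log_pow]
      exact Real.exp_le_exp.2 (mul_le_mul_of_nonneg_right hkx hlog1.le)
    have h2 : Real.exp ((1 + e - 1) * (x + c)) / (1 + e) ^ k ≤
        Real.exp ((1 + e - 1) * (x + c)) / Real.exp ((1 + e) * x * Real.log (1 + e)) :=
      div_le_div_of_nonneg_left (Real.exp_pos _).le (Real.exp_pos _) hpow
    refine h2.trans (le_of_eq ?_)
    rw [← Real.exp_sub, ← Real.exp_nat_mul, ← Real.exp_add]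
    congr 1
    rw [hIdef, hx]
    ring
  have hr0 : 0 ≤ Real.exp (-(I * Real.log 2)) := (Real.exp_pos _).le
  have hr1 : Real.exp (-(I * Real.log 2)) < 1 := by
    rw [Real.exp_lt_one_iff]
    have : 0 < I * Real.log 2 := mul_pos hI hl2
    linarith
  have hsum : Summable (fun j : ℕ => Real.exp (e * c) * Real.exp (-(I * Real.log 2)) ^ j) :=
    (summable_geometric_of_lt_one hr0 hr1).mul_left _
  have htop : ∑' j, μ (E j) ≠ ∞ := by
    have h1 : ∑' j, μ (E j) ≤
        ∑' j : ℕ, ENNReal.ofReal (Real.exp (e * c) * Real.exp (-(I * Real.log 2)) ^ j) :=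
      ENNReal.tsum_le_tsum hbound
    rw [← ENNReal.ofReal_tsum_of_nonneg (fun j => by positivity) hsum] at h1
    exact (h1.trans_lt ENNReal.ofReal_lt_top).ne
  filter_upwards [ae_eventually_notMem htop] with ω hω
  filter_upwards [hω] with j hj
  exact not_lt.1 hj

/-- **Almost sure bound.** If `T n` is monotone in `n` and has the exponential moments of a Poisson
variable with mean `log n + c`, then almost surely `limsup T n / log n ≤ 1`. -/
theorem ae_limsup (μ : Measure Ω) (T : ℕ → Ω → ℕ) (hmono : ∀ ω, Monotone fun n => T n ω) (c : ℝ)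
    (h : ∀ n : ℕ, 1 ≤ n → ∀ k : ℕ, ∀ θ : ℝ, 1 ≤ θ →
      μ {ω | k ≤ T n ω} ≤ ENNReal.ofReal (Real.exp ((θ - 1) * (Real.log n + c)) / θ ^ k)) :
    ∀ᵐ ω ∂μ, ∀ e : ℝ, 0 < e → ∀ᶠ n : ℕ in atTop, (T n ω : ℝ) ≤ (1 + e) * Real.log n := by
  have hl2 : 0 < Real.log 2 := Real.log_pos (by norm_num)
  have h1 : ∀ᵐ ω ∂μ, ∀ m : ℕ, ∀ᶠ j : ℕ in atTop,
      (T (2 ^ j) ω : ℝ) ≤ (1 + 1 / (2 * ((m : ℝ) + 1))) * (j * Real.log 2) := by
    rw [ae_all_iff]
    intro m
    exact ae_pow μ T c h (by positivity)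
  filter_upwards [h1] with ω hω e he
  obtain ⟨m, hm⟩ := exists_nat_one_div_lt he
  have hm' : (0 : ℝ) < (m : ℝ) + 1 := by positivity
  set a : ℝ := 1 / (2 * ((m : ℝ) + 1)) with ha
  have ha0 : 0 < a := by positivity
  have h2a : 2 * a = 1 / ((m : ℝ) + 1) := by
    rw [ha]
    field_simp
  have h2 := hω m
  rw [← ha] at h2
  -- pass to all `n`
  have hlogtop : Tendsto (fun n : ℕ => Real.log (n : ℝ)) atTop atTop :=
    Real.tendsto_log_atTop.comp tendsto_natCast_atTop_atTop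
  have hj : Tendsto (fun n : ℕ => Nat.log 2 n + 1) atTop atTop := by
    refine tendsto_atTop_atTop.2 fun b => ⟨2 ^ b, fun n hn => ?_⟩
    have := Nat.log_mono_right (b := 2) hn
    rw [Nat.log_pow (by norm_num)] at this
    omega
  have h3 := hj.eventually h2
  have h4 : ∀ᶠ n : ℕ in atTop, (1 + a) * Real.log 2 / a ≤ Real.log (n : ℝ) :=
    hlogtop.eventually_ge_atTop _
  filter_upwards [h3, h4, eventually_ge_atTop 1] with n g1 g2 g3
  have hn0 : (0 : ℝ) < n := by exact_mod_cast g3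
  have g4 : n ≤ 2 ^ (Nat.log 2 n + 1) := (Nat.lt_pow_succ_log_self (by norm_num) n).le
  have g5 : (T n ω : ℝ) ≤ T (2 ^ (Nat.log 2 n + 1)) ω := by
    exact_mod_cast hmono ω g4
  have g6 : ((Nat.log 2 n : ℕ) : ℝ) * Real.log 2 ≤ Real.log n := by
    have k1 : 2 ^ Nat.log 2 n ≤ n := Nat.pow_log_le_self 2 (by omega)
    have k2 : ((2 : ℝ) ^ Nat.log 2 n) ≤ n := by exact_mod_cast k1
    have k3 := Real.log_le_log (by positivity) k2
    rwa [Real.log_pow] at k3
  have g7 : (1 + a) * Real.log 2 ≤ a * Real.log n := by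
    rw [div_le_iff₀ ha0] at g2
    linarith
  have hlogn : 0 ≤ Real.log (n : ℝ) := Real.log_natCast_nonneg n
  have g8 : (1 + a) * (((Nat.log 2 n + 1 : ℕ) : ℝ) * Real.log 2) ≤
      (1 + a) * (Real.log n + Real.log 2) := by
    apply mul_le_mul_of_nonneg_left _ (by positivity)
    push_cast
    linarith
  have g9 : (1 + a) * (Real.log n + Real.log 2) ≤ (1 + 2 * a) * Real.log n := by
    nlinarith
  have g10 : (1 + 2 * a) * Real.log n ≤ (1 + e) * Real.log n := by
    apply mul_le_mul_of_nonneg_right _ hlogn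
    rw [h2a]
    linarith
  linarith

/-! ### Poisson tails -/

theorem PT_chernoff {x θ : ℝ} (hx : 0 ≤ x) (hθ : 1 ≤ θ) (k : ℕ) :
    PT k x ≤ Real.exp ((θ - 1) * x) / θ ^ k := by
  have hθ0 : (0 : ℝ) < θ := by linarith
  have key : ∀ y : ℝ, Real.exp y = Ek k y + ∑' i : ℕ, y ^ (i + k) / ((i + k).factorial : ℝ) := by
    intro y
    have h1 := Real.summable_pow_div_factorial y
    have h2 := h1.sum_add_tsum_nat_add k
    rw [Real.exp_eq_exp_ℝ, NormedSpace.exp_eq_tsum_div]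
    exact h2.symm
  have hs : ∀ y : ℝ, Summable fun i : ℕ => y ^ (i + k) / ((i + k).factorial : ℝ) := fun y =>
    (summable_nat_add_iff k).2 (Real.summable_pow_div_factorial y)
  have h1 : θ ^ k * ∑' i : ℕ, x ^ (i + k) / ((i + k).factorial : ℝ) ≤
      ∑' i : ℕ, (θ * x) ^ (i + k) / ((i + k).factorial : ℝ) := by
    rw [← tsum_mul_left]
    refine Summable.tsum_le_tsum (fun i => ?_) ((hs x).mul_left _) (hs (θ * x))
    rw [mul_pow, mul_div_assoc]
    apply mul_le_mul_of_nonneg_right _ (by positivity)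
    exact pow_le_pow_right₀ hθ (by omega)
  have h2 : 0 ≤ Ek k (θ * x) := by
    unfold Ek
    exact Finset.sum_nonneg fun j _ => by positivity
  have h3 : θ ^ k * (Real.exp x - Ek k x) ≤ Real.exp (θ * x) := by
    have e1 := key x
    have e2 := key (θ * x)
    have e3 : Real.exp x - Ek k x = ∑' i : ℕ, x ^ (i + k) / ((i + k).factorial : ℝ) := by
      linarith
    rw [e3]
    linarith
  have h4 : PT k x = Real.exp (-x) * (Real.exp x - Ek k x) := by
    unfold PT
    rw [mul_sub, ← Real.exp_add]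
    simp
  rw [h4, le_div_iff₀ (by positivity)]
  have h5 : Real.exp ((θ - 1) * x) = Real.exp (-x) * Real.exp (θ * x) := by
    rw [← Real.exp_add]
    congr 1
    ring
  rw [h5]
  calc Real.exp (-x) * (Real.exp x - Ek k x) * θ ^ k
      = Real.exp (-x) * (θ ^ k * (Real.exp x - Ek k x)) := by ring
    _ ≤ Real.exp (-x) * Real.exp (θ * x) :=
        mul_le_mul_of_nonneg_left h3 (Real.exp_pos _).le

/-- **Almost sure bound from the Poisson tail.** -/
theorem ae_of_tail (μ : Measure Ω) [IsProbabilityMeasure μ] (T : ℕ → Ω → ℕ)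
    (hmono : ∀ ω, Monotone fun n => T n ω) {c : ℝ} (hc : 0 ≤ c)
    (hT : ∀ n : ℕ, 1 ≤ n → ∀ k : ℕ,
      μ {ω | k < T n ω} ≤ ENNReal.ofReal (PT (k + 1) (Real.log n + c))) :
    ∀ᵐ ω ∂μ, ∀ e : ℝ, 0 < e → ∀ᶠ n : ℕ in atTop, (T n ω : ℝ) ≤ (1 + e) * Real.log n := by
  refine ae_limsup μ T hmono c fun n hn k θ hθ => ?_
  have hlog : 0 ≤ Real.log (n : ℝ) + c := add_nonneg (Real.log_natCast_nonneg n) hc
  have hch := PT_chernoff hlog hθ k
  rcases k with _ | k
  · refine prob_le_one.trans ?_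
    rw [← ENNReal.ofReal_one]
    apply ENNReal.ofReal_le_ofReal
    rw [pow_zero, div_one]
    exact Real.one_le_exp (mul_nonneg (by linarith) hlog)
  · have h1 : {ω | k + 1 ≤ T n ω} = {ω | k < T n ω} := by
      ext ω
      exact Nat.succ_le_iff
    rw [h1]
    exact (hT n hn k).trans (ENNReal.ofReal_le_ofReal hch)

open Pool.Agent.FPP38 in
/-- the form for the passage times -/
theorem as_limsup {p : ℝ≥0} (hp : p ≤ 1) {c : ℝ} (hc : 0 ≤ c)
    (hT : ∀ n : ℕ, 1 ≤ n → ∀ k : ℕ, PB (Fin 3 → ℤ) p hp {ω | k < TT 3 n ω} ≤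
      ENNReal.ofReal (PT (k + 1) (Real.log n + c))) :
    ∀ᵐ ω ∂(PB (Fin 3 → ℤ) p hp), ∀ e : ℝ, 0 < e →
      ∀ᶠ n : ℕ in atTop, (TT 3 n ω : ℝ) ≤ (1 + e) * Real.log n :=
  ae_of_tail _ (fun n ω => TT 3 n ω) (fun ω => TT_mono (0 : Fin 3) ω) hc hT

end Pool.Agent.FPPT.AsLim
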