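import Pool.Agent.FPPT.Tail

/-!
Chernoff's bound for the Poisson tail.
-/

set_option autoImplicit false

open Finset

namespace Pool.Agent.FPPT

/-- Chernoff's bound: `P(Poi(x) ≥ k) ≤ exp(-s k + x (e ^ s - 1))` -/
theorem PT_chernoff {x s : ℝ} (hx : 0 ≤ x) (hs : 0 ≤ s) (k : ℕ) :
    PT k x ≤ Real.exp (-s * k + x * (Real.exp s - 1)) := by
  have h1 : HasSum (fun j : ℕ => x ^ j / (j.factorial : ℝ)) (Real.exp x) := by
    rw [Real.exp_eq_exp_ℝ]
    exact NormedSpace.expSeries_div_hasSum_exp x
  have h2 : HasSum (fun j : ℕ => (Real.exp s * x) ^ j / (j.factorial : ℝ))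
      (Real.exp (Real.exp s * x)) := by
    have h0 := NormedSpace.expSeries_div_hasSum_exp (Real.exp s * x)
    rwa [← Real.exp_eq_exp_ℝ] at h0
  have h3 : HasSum (fun j : ℕ => if j ∈ range k then x ^ j / (j.factorial : ℝ) else 0)
      (Ek k x) := by
    have h0 : HasSum (fun j : ℕ => if j ∈ range k then x ^ j / (j.factorial : ℝ) else 0)
        (∑ j ∈ range k, if j ∈ range k then x ^ j / (j.factorial : ℝ) else 0) :=
      hasSum_sum_of_ne_finset_zero fun j hj => if_neg hj
    rwa [sum_congr rfl fun j hj => if_pos hj] at h0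
  have h4 : Real.exp x - Ek k x ≤ Real.exp (-s * k) * Real.exp (Real.exp s * x) := by
    refine hasSum_le (fun j => ?_) (h1.sub h3) (h2.mul_left (Real.exp (-s * k)))
    have hxj : 0 ≤ x ^ j / (j.factorial : ℝ) := by positivity
    split_ifs with hj
    · rw [sub_self]
      positivity
    · rw [sub_zero, mul_pow, mul_div_assoc, ← mul_assoc]
      refine le_mul_of_one_le_left hxj ?_
      rw [mem_range, not_lt] at hj
      have h5 : Real.exp s ^ j = Real.exp (s * j) := by
        rw [mul_comm, Real.exp_nat_mul]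
      rw [h5, ← Real.exp_add]
      refine Real.one_le_exp ?_
      have h6 : (k : ℝ) ≤ j := by exact_mod_cast hj
      nlinarith
  have h5 : PT k x = Real.exp (-x) * (Real.exp x - Ek k x) := by
    unfold PT
    rw [mul_sub, ← Real.exp_add, neg_add_cancel, Real.exp_zero]
  rw [h5]
  calc Real.exp (-x) * (Real.exp x - Ek k x)
      ≤ Real.exp (-x) * (Real.exp (-s * k) * Real.exp (Real.exp s * x)) :=
        mul_le_mul_of_nonneg_left h4 (Real.exp_pos _).le
    _ = Real.exp (-s * k + x * (Real.exp s - 1)) := by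
        rw [← Real.exp_add, ← Real.exp_add]
        congr 1
        ring

end Pool.Agent.FPPT
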